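import Mathlib
import Pool.Agent.W69.MH.Stm
import Pool.Agent.H262R3.Lk.SWQ

/-! MH-REAL (helper803): no real character modulo `2 ^ k * d` is exceptional. -/

open Finset

namespace Pool.Agent.W803.MH

open Pool.Agent.H262R3.Lk Pool.Agent.W69.MH
open Pool.Agent.H318R2.Cr (Rgh V)

theorem sq_lift (a : ℤ) (ha : (8 : ℤ) ∣ 1 - a) (k : ℕ) (hk : 3 ≤ k) :
    ∃ x : ℤ, Odd x ∧ (2 : ℤ) ^ k ∣ x ^ 2 - a := by
  induction k, hk using Nat.le_induction with
  | base => exact ⟨1, odd_one, by norm_num; exact ha⟩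
  | succ k hk ih =>
    obtain ⟨x, hx, t, ht⟩ := ih
    rcases Int.even_or_odd t with ⟨r, hr⟩ | hodd
    · exact ⟨x, hx, r, by rw [ht, hr, pow_succ]; ring⟩
    · obtain ⟨j, rfl⟩ : ∃ j, k = j + 3 := ⟨k - 3, by omega⟩
      obtain ⟨r, hr⟩ := hodd.add_odd hx
      refine ⟨x + 2 ^ (j + 2), ?_, r + 2 ^ j, ?_⟩
      · refine hx.add_even ⟨2 ^ (j + 1), ?_⟩
        ring
      · have h1 : x = r + r - t := by linarith
        have h2 : (x + 2 ^ (j + 2)) ^ 2 - a = (x ^ 2 - a) + 2 ^ (j + 3) * x + 2 ^ (2 * j + 4) := by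
          ring
        rw [h2, ht]
        have h3 : (2 : ℤ) ^ (j + 3) * t + 2 ^ (j + 3) * x = 2 ^ (j + 3) * (r + r) := by
          rw [← mul_add, hr]
        rw [h3]
        ring

/-- a residue congruent to one modulo `gcd(8 d, 2 ^ k d)` is a square modulo `2 ^ k * d` -/
theorem exists_sq (k d : ℕ) (hd : Odd d) (a : ℤ)
    (ha : ((Nat.gcd (8 * d) (2 ^ k * d) : ℕ) : ℤ) ∣ 1 - a) :
    ∃ s : ℤ, ((2 ^ k * d : ℕ) : ℤ) ∣ s ^ 2 - a := by
  rw [Nat.gcd_mul_right] at ha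
  have hda : (d : ℤ) ∣ 1 - a := by
    refine dvd_trans ?_ ha
    push_cast
    exact dvd_mul_left _ _
  have hcop : IsCoprime ((2 : ℤ) ^ k) (d : ℤ) := by
    apply IsCoprime.pow_left
    rw [Int.isCoprime_iff_gcd_eq_one]
    have : Nat.Coprime 2 d := Nat.coprime_two_left.2 hd
    exact_mod_cast this
  have h2 : ∃ x : ℤ, (2 : ℤ) ^ k ∣ x ^ 2 - a := by
    by_cases hk : 3 ≤ k
    · have h8 : Nat.gcd 8 (2 ^ k) = 8 := by
        apply Nat.gcd_eq_left
        obtain ⟨j, rfl⟩ : ∃ j, k = j + 3 := ⟨k - 3, by omega⟩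
        exact ⟨2 ^ j, by rw [pow_add]; ring⟩
      rw [h8] at ha
      have h8a : (8 : ℤ) ∣ 1 - a := by
        refine dvd_trans ?_ ha
        push_cast
        exact dvd_mul_right _ _
      obtain ⟨x, _, hx⟩ := sq_lift a h8a k hk
      exact ⟨x, hx⟩
    · have h8 : Nat.gcd 8 (2 ^ k) = 2 ^ k := by
        apply Nat.gcd_eq_right
        have : k = 0 ∨ k = 1 ∨ k = 2 := by omega
        rcases this with rfl | rfl | rfl <;> decide
      rw [h8] at ha
      refine ⟨1, ?_⟩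
      rw [one_pow]
      refine dvd_trans ?_ ha
      push_cast
      exact dvd_mul_right _ _
  obtain ⟨x, hx⟩ := h2
  obtain ⟨u, v, huv⟩ := hcop
  -- u * 2^k + v * d = 1
  refine ⟨u * 2 ^ k + v * d * x, ?_⟩
  push_cast
  apply IsCoprime.mul_dvd (IsCoprime.symm ⟨v, u, by linarith⟩)
  · obtain ⟨y, hy⟩ := hx
    refine ⟨u * (u * 2 ^ k + 2 * (v * d * x)) + y - u * (1 + v * d) * x ^ 2, ?_⟩
    have h1 : v * (d : ℤ) = 1 - u * 2 ^ k := by linarith
    have h2 : a = x ^ 2 - 2 ^ k * y := by linarith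
    rw [h2, h1]
    ring
  · obtain ⟨y, hy⟩ := hda
    refine ⟨v * x * (2 * (u * 2 ^ k) + v * d * x) + y - v * (1 + u * 2 ^ k), ?_⟩
    have h1 : u * 2 ^ k = 1 - v * (d : ℤ) := by linarith
    have h2 : a = 1 - d * y := by linarith
    rw [h2, h1]
    ring

theorem real_ : St_REAL := by
  intro B
  obtain ⟨z0, hz0⟩ := swq (B + 1)
  refine ⟨max z0 (⌈Real.exp 8⌉₊ + 1), fun z hz k d hd hdB hQz χ hχ1 hχ2 σ hσ hσ1 => ?_⟩
  have hd0 : 0 < d := hd.pos
  have hQ0 : 0 < 2 ^ k * d := by positivity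
  have : NeZero (2 ^ k * d) := ⟨hQ0.ne'⟩
  have hlog : (8 : ℝ) ≤ Real.log z := by
    rw [Real.le_log_iff_exp_le]
    · refine (Nat.le_ceil _).trans ?_
      exact_mod_cast (Nat.le_succ _).trans ((le_max_right _ _).trans hz)
    · have : 0 < z := by
        have := (le_max_right z0 (⌈Real.exp 8⌉₊ + 1)).trans hz
        omega
      exact_mod_cast this
  have hfac : χ.FactorsThrough (Nat.gcd (8 * d) (2 ^ k * d)) := by
    rw [DirichletCharacter.factorsThrough_iff_ker_unitsMap (Nat.gcd_dvd_right _ _)]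
    intro u hu
    rw [MonoidHom.mem_ker] at hu ⊢
    obtain ⟨a, ha⟩ := ZMod.intCast_surjective (u : ZMod (2 ^ k * d))
    have h1 : ((Nat.gcd (8 * d) (2 ^ k * d) : ℕ) : ℤ) ∣ 1 - a := by
      rw [← ZMod.intCast_zmod_eq_zero_iff_dvd]
      have h2 := congrArg (fun x : (ZMod (Nat.gcd (8 * d) (2 ^ k * d)))ˣ =>
        (x : ZMod (Nat.gcd (8 * d) (2 ^ k * d)))) hu
      simp only [Units.val_one, ZMod.unitsMap_val] at h2
      rw [← ha, ZMod.cast_intCast (Nat.gcd_dvd_right _ _)] at h2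
      push_cast
      rw [h2, sub_self]
    obtain ⟨s, hs⟩ := exists_sq k d hd a h1
    have h3 : ((s : ZMod (2 ^ k * d))) ^ 2 = (u : ZMod (2 ^ k * d)) := by
      rw [← ha]
      rw [← ZMod.intCast_zmod_eq_zero_iff_dvd] at hs
      push_cast at hs ⊢
      exact sub_eq_zero.1 hs
    have h4 : IsUnit (s : ZMod (2 ^ k * d)) := by
      have : IsUnit ((s : ZMod (2 ^ k * d)) * (s : ZMod (2 ^ k * d))) := by
        rw [← sq, h3]
        exact u.isUnit
      exact isUnit_of_mul_isUnit_left this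
    have h5 : χ (u : ZMod (2 ^ k * d)) = 1 := by
      rw [← h3, map_pow, ← MulChar.pow_apply' χ two_ne_zero, hχ2, MulChar.one_apply h4]
    apply Units.ext
    rw [MulChar.coe_toUnitHom, h5, Units.val_one]
  have hcond : χ.conductor ≤ 8 * d := by
    refine (Nat.sInf_le (m := Nat.gcd (8 * d) (2 ^ k * d)) hfac).trans ?_
    exact Nat.gcd_le_left _ (by omega)
  have hc0 : χ.conductor ≠ 0 := χ.conductor_ne_zero
  have hc1 : χ.conductor ≠ 1 := fun h => hχ1 (χ.eq_one_iff_conductor_eq_one.2 h)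
  have hcl : (χ.conductor : ℝ) ≤ (Real.log z) ^ (B + 1) := by
    have h1 : (χ.conductor : ℝ) ≤ 8 * d := by exact_mod_cast hcond
    have h2 : (0 : ℝ) ≤ (Real.log z) ^ B := by positivity
    rw [pow_succ]
    nlinarith
  have hmain := hz0 z ((le_max_left _ _).trans hz) χ.conductor (by omega) hcl
    χ.primitiveCharacter χ.primitiveCharacter_isPrimitive σ hσ hσ1
  have hfz : ∀ n, fz z χ n = fz z χ.primitiveCharacter n := by
    intro n
    unfold fz
    split_ifs with h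
    · have hcop : n.Coprime (2 ^ k * d) := by
        apply Nat.coprime_of_dvd
        intro p hp hpn hpQ
        exact h p hp ((Nat.le_of_dvd hQ0 hpQ).trans hQz) hpn
      have h2 := χ.primitiveCharacter_apply_of_isCoprime (a := (n : ℤ))
        (by exact_mod_cast Nat.isCoprime_iff_coprime.2 hcop)
      simpa using h2.symm
    · rfl
  have hL : Lj z χ 0 σ = Lj z χ.primitiveCharacter 0 σ := by
    unfold Lj
    simp only [hfz]
  rw [hL]
  exact hmain

end Pool.Agent.W803.MH
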