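import Mathlib
import Pool.Agent.W69.MH.Stm
import Pool.Agent.W74.MH.B0

/-! MH-TAIL (helper803): prime powers and large primes contribute little. -/

open Finset

namespace Pool.Agent.W803.MH

open Pool.Agent.H262R3.Lk Pool.Agent.W69.MH
open Pool.Agent.H318R2.Cr (Rgh V)

theorem geo (m : ℝ) (hm : 1 < m) (N : ℕ) :
    (m - 1) * ∑ j ∈ range N, (1 : ℝ) / m ^ (2 + j) = 1 / m - 1 / m ^ (N + 1) := by
  have hm0 : 0 < m := by linarith
  induction N with
  | zero => simp
  | succ N ih =>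
    rw [sum_range_succ, mul_add, ih]
    have h1 : m ^ (2 + N) = m ^ (N + 1) * m := by ring
    have h2 : m ^ (N + 1 + 1) = m ^ (N + 1) * m := by ring
    rw [h1, h2]
    field_simp
    ring

theorem tele (z Y : ℕ) (hz : 1 ≤ z) :
    ∑ m ∈ Ioc z Y, (1 / ((m : ℝ) - 1) - 1 / (m : ℝ)) ≤ 1 / z := by
  by_cases h : z ≤ Y
  · have h1 : ∑ m ∈ Ioc z Y, (1 / ((m : ℝ) - 1) - 1 / (m : ℝ)) = 1 / z - 1 / Y := by
      induction Y, h using Nat.le_induction with
      | base => simp
      | succ Y hY ih =>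
        rw [Finset.sum_Ioc_succ_top (by omega), ih]
        push_cast
        have : (Y : ℝ) + 1 - 1 = Y := by ring
        rw [this]
        ring
    rw [h1]
    have : (0 : ℝ) ≤ 1 / Y := by positivity
    linarith
  · rw [Ioc_eq_empty_of_le (by omega), sum_empty]
    positivity

/-- reciprocals of the proper powers of primes greater than `z` -/
theorem pp_sum (z Y : ℕ) (hz : 2 ≤ z) (S : Finset ℕ)
    (hS : ∀ n ∈ S, IsPrimePow n ∧ ¬ n.Prime ∧ Rgh z n ∧ n ≤ Y) :
    ∑ n ∈ S, (1 : ℝ) / n ≤ 1 / z := by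
  set e : ℕ → ℕ × ℕ := fun n => (n.minFac, n.factorization n.minFac) with hedef
  have he : ∀ n ∈ S, n.minFac ^ n.factorization n.minFac = n :=
    fun n hn => (hS n hn).1.minFac_pow_factorization_eq
  have hinj : Set.InjOn e S := by
    intro a ha b hb hab
    have h1 : a.minFac = b.minFac := congrArg Prod.fst hab
    have h2 : a.factorization a.minFac = b.factorization b.minFac := congrArg Prod.snd hab
    calc a = a.minFac ^ a.factorization a.minFac := (he a ha).symm
      _ = b.minFac ^ b.factorization b.minFac := by rw [h2, h1]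
      _ = b := he b hb
  have h1 : ∑ n ∈ S, (1 : ℝ) / n = ∑ x ∈ S.image e, (1 : ℝ) / ((x.1 : ℝ) ^ x.2) := by
    rw [Finset.sum_image hinj]
    refine Finset.sum_congr rfl fun n hn => ?_
    have := he n hn
    simp only [hedef]
    rw [← Nat.cast_pow, this]
  have h2 : S.image e ⊆ Ioc z Y ×ˢ Ico 2 (Y + 2) := by
    intro x hx
    rw [Finset.mem_image] at hx
    obtain ⟨n, hn, rfl⟩ := hx
    obtain ⟨hpp, hnp, hr, hY⟩ := hS n hn
    have hn1 : n ≠ 1 := hpp.ne_one
    have hn0 : 0 < n := hpp.pos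
    have hp : n.minFac.Prime := Nat.minFac_prime hn1
    have hn2 := he n hn
    rw [Finset.mem_product, mem_Ioc, mem_Ico]
    simp only [hedef]
    refine ⟨⟨?_, ?_⟩, ?_, ?_⟩
    · by_contra hlt
      exact hr _ hp (not_lt.1 hlt) (Nat.minFac_dvd n)
    · exact (Nat.minFac_le hn0).trans hY
    · by_contra hlt
      have : n.factorization n.minFac = 0 ∨ n.factorization n.minFac = 1 := by omega
      rcases this with h | h
      · rw [h, pow_zero] at hn2
        exact hn1 hn2.symm
      · rw [h, pow_one] at hn2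
        exact hnp (hn2 ▸ hp)
    · have h3 : n.factorization n.minFac < n.minFac ^ n.factorization n.minFac :=
        Nat.lt_pow_self hp.one_lt
      rw [hn2] at h3
      omega
  rw [h1]
  refine (Finset.sum_le_sum_of_subset_of_nonneg h2 (fun _ _ _ => by positivity)).trans ?_
  rw [Finset.sum_product]
  refine le_trans ?_ (tele z Y (by omega))
  refine Finset.sum_le_sum fun m hm => ?_
  rw [mem_Ioc] at hm
  have hm1 : (1 : ℝ) < m := by
    have : 1 < m := by omega
    exact_mod_cast this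
  have hm0 : (0 : ℝ) < m := by linarith
  have hm2 : (0 : ℝ) < (m : ℝ) - 1 := by linarith
  rw [Finset.sum_Ico_eq_sum_range]
  have h3 := geo m hm1 (Y + 2 - 2)
  have h4 : (m - 1 : ℝ) * ∑ j ∈ range (Y + 2 - 2), (1 : ℝ) / (m : ℝ) ^ (2 + j) ≤ 1 / m := by
    rw [h3]
    have : (0 : ℝ) ≤ 1 / (m : ℝ) ^ (Y + 2 - 2 + 1) := by positivity
    linarith
  have h5 : (1 : ℝ) / ((m : ℝ) - 1) - 1 / m = (1 / m) / (m - 1) := by
    field_simp
    ring
  rw [h5, le_div_iff₀ hm2]
  linarith

theorem bj_nonneg (z q b j : ℕ) (σ : ℝ) (n : ℕ) : 0 ≤ bj z q b j σ n := by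
  unfold bj
  split_ifs
  · apply mul_nonneg ArithmeticFunction.vonMangoldt_nonneg
    have := Real.log_natCast_nonneg n
    positivity
  · exact le_rfl

/-- terms with `n > z ^ K` -/
theorem large_term (z q b K n : ℕ) (A : ℝ) (hA : 1 ≤ A) (hz : 32 ≤ z) (hn : z ^ K < n) :
    bj z q b 2 (1 / (A * Real.log z)) n ≤
      (Real.exp (-(K / (2 * A))) * (64 * A ^ 2 * (Real.log z) ^ 2)) *
        bj z q b 0 (1 / (A * Real.log z) / 4) n := by
  set L := Real.log z with hL
  have hz0 : (1 : ℝ) < z := by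
    have : 1 < z := by omega
    exact_mod_cast this
  have hL0 : 0 < L := Real.log_pos hz0
  have hA0 : 0 < A := by linarith
  set s := 1 / (A * L) with hs
  have hs0 : 0 < s := by positivity
  have hn0 : (0 : ℝ) < n := by
    have : 0 < n := by omega
    exact_mod_cast this
  set x := Real.log n with hx
  have hxK : K * L ≤ x := by
    rw [hx, hL, ← Real.log_pow]
    apply Real.log_le_log (by positivity)
    exact_mod_cast hn.le
  have hx0 : 0 ≤ x := le_trans (by positivity) hxK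
  unfold bj
  split_ifs with h
  · have h1 : (n : ℝ) ^ (1 + s) = (n : ℝ) ^ (1 + s / 4) * ((n : ℝ) ^ (s / 4) * (n : ℝ) ^ (s / 2)) := by
      rw [← Real.rpow_add hn0, ← Real.rpow_add hn0]
      congr 1
      ring
    have h2 : Real.exp (K / (2 * A)) ≤ (n : ℝ) ^ (s / 2) := by
      rw [Real.rpow_def_of_pos hn0, Real.exp_le_exp]
      have : (K : ℝ) / (2 * A) = K * L * (s / 2) := by
        rw [hs]
        field_simp
      rw [this]
      exact mul_le_mul_of_nonneg_right hxK (by positivity)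
    have h3 : x ^ 2 ≤ (64 * A ^ 2 * L ^ 2) * (n : ℝ) ^ (s / 4) := by
      rw [Real.rpow_def_of_pos hn0, ← hx]
      have e1 : Real.exp (x * (s / 4)) = Real.exp (x * s / 8) ^ 2 := by
        rw [← Real.exp_nat_mul]
        congr 1
        push_cast
        ring
      have e2 : x * s / 8 ≤ Real.exp (x * s / 8) := by
        have := Real.add_one_le_exp (x * s / 8)
        linarith
      have e3 : (x * s / 8) ^ 2 ≤ Real.exp (x * s / 8) ^ 2 :=
        pow_le_pow_left₀ (by positivity) e2 2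
      rw [e1]
      have e4 : x ^ 2 = (64 * A ^ 2 * L ^ 2) * (x * s / 8) ^ 2 := by
        rw [hs]
        field_simp
        ring
      rw [e4]
      exact mul_le_mul_of_nonneg_left e3 (by positivity)
    have hp1 : 0 < (n : ℝ) ^ (1 + s / 4) := Real.rpow_pos_of_pos hn0 _
    have hp2 : 0 < (n : ℝ) ^ (s / 4) := Real.rpow_pos_of_pos hn0 _
    have hp3 : 0 < (n : ℝ) ^ (s / 2) := Real.rpow_pos_of_pos hn0 _
    have h4 : x ^ 2 / (n : ℝ) ^ (1 + s) ≤
        (Real.exp (-(K / (2 * A))) * (64 * A ^ 2 * L ^ 2)) * (x ^ 0 / (n : ℝ) ^ (1 + s / 4)) := by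
      rw [h1, pow_zero, div_le_iff₀ (by positivity)]
      have e1 : (Real.exp (-(K / (2 * A))) * (64 * A ^ 2 * L ^ 2)) * (1 / (n : ℝ) ^ (1 + s / 4)) *
          ((n : ℝ) ^ (1 + s / 4) * ((n : ℝ) ^ (s / 4) * (n : ℝ) ^ (s / 2))) =
          ((64 * A ^ 2 * L ^ 2) * (n : ℝ) ^ (s / 4)) *
            (Real.exp (-(K / (2 * A))) * (n : ℝ) ^ (s / 2)) := by
        field_simp
      rw [e1]
      have e2 : 1 ≤ Real.exp (-(K / (2 * A))) * (n : ℝ) ^ (s / 2) := by
        have : Real.exp (-(K / (2 * A))) * Real.exp (K / (2 * A)) = 1 := by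
          rw [← Real.exp_add]
          simp
        rw [← this]
        exact mul_le_mul_of_nonneg_left h2 (Real.exp_pos _).le
      calc x ^ 2 ≤ (64 * A ^ 2 * L ^ 2) * (n : ℝ) ^ (s / 4) := h3
        _ = (64 * A ^ 2 * L ^ 2) * (n : ℝ) ^ (s / 4) * 1 := (mul_one _).symm
        _ ≤ _ := mul_le_mul_of_nonneg_left e2 (by positivity)
    have h5 := mul_le_mul_of_nonneg_left h4
      (ArithmeticFunction.vonMangoldt_nonneg (n := n))
    refine h5.trans (le_of_eq ?_)
    ring
  · simp

/-- terms with `n ≤ z ^ K` -/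
theorem small_term (z K n : ℕ) (s : ℝ) (hs : 0 < s) (hn1 : 1 ≤ n)
    (hn : n ≤ z ^ K) :
    ArithmeticFunction.vonMangoldt n * ((Real.log n) ^ 2 / (n : ℝ) ^ (1 + s)) ≤
      (K : ℝ) ^ 3 * (Real.log z) ^ 3 * (1 / n) := by
  have hn0 : (0 : ℝ) < n := by exact_mod_cast hn1
  have hx0 : 0 ≤ Real.log n := Real.log_natCast_nonneg n
  have hxK : Real.log n ≤ K * Real.log z := by
    rw [← Real.log_pow]
    apply Real.log_le_log hn0
    exact_mod_cast hn
  have h1 : (n : ℝ) ≤ (n : ℝ) ^ (1 + s) := by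
    have hn1' : (1 : ℝ) ≤ n := by exact_mod_cast hn1
    calc (n : ℝ) = (n : ℝ) ^ (1 : ℝ) := (Real.rpow_one _).symm
      _ ≤ (n : ℝ) ^ (1 + s) := Real.rpow_le_rpow_of_exponent_le hn1' (by linarith)
  have h2 : ArithmeticFunction.vonMangoldt n ≤ Real.log n := ArithmeticFunction.vonMangoldt_le_log
  calc ArithmeticFunction.vonMangoldt n * ((Real.log n) ^ 2 / (n : ℝ) ^ (1 + s))
      ≤ Real.log n * ((Real.log n) ^ 2 / (n : ℝ) ^ (1 + s)) :=
        mul_le_mul_of_nonneg_right h2 (by positivity)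
    _ ≤ Real.log n * ((Real.log n) ^ 2 / n) := by
        apply mul_le_mul_of_nonneg_left _ hx0
        exact div_le_div_of_nonneg_left (by positivity) hn0 h1
    _ = (Real.log n) ^ 3 * (1 / n) := by ring
    _ ≤ (K * Real.log z) ^ 3 * (1 / n) := by
        apply mul_le_mul_of_nonneg_right _ (by positivity)
        exact pow_le_pow_left₀ hx0 hxK 3
    _ = _ := by ring

theorem tail (hBT : Pool.Agent.H262R3.Lk.St_BT) (hSUM : Pool.Agent.H262R3.Lk.St_SUM) :
    St_TAIL := by
  classical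
  intro A c hA hc
  obtain ⟨C, hC, hB0⟩ := b0 hBT hSUM
  have hA0 : 0 < A := by linarith
  obtain ⟨K, hK1, hK⟩ : ∃ K : ℕ, 1 ≤ K ∧ 1024 * A ^ 4 * C / c ≤ K :=
    ⟨⌈1024 * A ^ 4 * C / c⌉₊ + 1, by omega, (Nat.le_ceil _).trans (by push_cast; linarith)⟩
  have hK0 : (0 : ℝ) < K := by exact_mod_cast hK1
  have hKexp : Real.exp (-(K / (2 * A))) * (256 * A ^ 3 * C) ≤ c / 2 := by
    have h1 : (K : ℝ) / (2 * A) ≤ Real.exp (K / (2 * A)) := by
      have := Real.add_one_le_exp ((K : ℝ) / (2 * A))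
      linarith
    have h2 : Real.exp (-(K / (2 * A))) ≤ 2 * A / K := by
      rw [Real.exp_neg]
      have : (2 * A / K : ℝ) = ((K : ℝ) / (2 * A))⁻¹ := by rw [inv_div]
      rw [this]
      exact inv_anti₀ (by positivity) h1
    calc Real.exp (-(K / (2 * A))) * (256 * A ^ 3 * C)
        ≤ 2 * A / K * (256 * A ^ 3 * C) := mul_le_mul_of_nonneg_right h2 (by positivity)
      _ ≤ c / 2 := by
        rw [div_mul_eq_mul_div, div_le_iff₀ hK0]
        rw [div_le_iff₀ hc] at hK
        nlinarith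
  refine ⟨K, max 32 ⌈(2 * (K : ℝ) ^ 3 / c) ^ 2⌉₊, hK1, fun z q b hz hq hqz hb => ?_⟩
  have hz32 : 32 ≤ z := (le_max_left _ _).trans hz
  have hzK : (2 * (K : ℝ) ^ 3 / c) ^ 2 ≤ z := by
    refine (Nat.le_ceil _).trans ?_
    exact_mod_cast (le_max_right _ _).trans hz
  have hz1 : (1 : ℝ) < z := by
    have : 1 < z := by omega
    exact_mod_cast this
  have hz0 : (0 : ℝ) < z := by linarith
  set L := Real.log z with hL
  have hL0 : 0 < L := Real.log_pos hz1
  set s := 1 / (A * L) with hs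
  have hs0 : 0 < s := by positivity
  have hφ : (0 : ℝ) < q.totient := by exact_mod_cast Nat.totient_pos.2 hq
  have hφq : (q.totient : ℝ) ≤ q := by exact_mod_cast Nat.totient_le q
  have hq0 : (0 : ℝ) < q := by exact_mod_cast hq
  -- K ^ 3 / z ≤ (c / 2) / φ
  have hKz : (K : ℝ) ^ 3 * (1 / z) ≤ c / 2 / q.totient := by
    have h1 : 2 * (K : ℝ) ^ 3 / c ≤ Real.sqrt z := by
      rw [Real.le_sqrt (by positivity) hz0.le]
      exact hzK
    have h2 : (q : ℝ) ≤ Real.sqrt z := by
      rw [Real.le_sqrt hq0.le hz0.le]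
      have : q ^ 2 ≤ z := (Nat.pow_le_pow_right hq (by norm_num)).trans hqz
      exact_mod_cast this
    have h3 : 2 * (K : ℝ) ^ 3 / c * q ≤ z := by
      calc 2 * (K : ℝ) ^ 3 / c * q ≤ Real.sqrt z * Real.sqrt z :=
            mul_le_mul h1 h2 hq0.le (Real.sqrt_nonneg _)
        _ = z := Real.mul_self_sqrt hz0.le
    have h4 : 2 * (K : ℝ) ^ 3 * q ≤ z * c := by
      rw [div_mul_eq_mul_div, div_le_iff₀ hc] at h3
      exact h3
    have h5 : 2 * (K : ℝ) ^ 3 * q.totient ≤ z * c := by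
      refine le_trans ?_ h4
      exact mul_le_mul_of_nonneg_left hφq (by positivity)
    rw [mul_one_div, div_le_div_iff₀ hz0 hφ]
    linarith
  -- the tail
  set E : ℝ := Real.exp (-(K / (2 * A))) * (64 * A ^ 2 * L ^ 2) with hE
  have hE0 : 0 ≤ E := by positivity
  have hpt : ∀ n, bj z q b 2 s n ≤ E * bj z q b 0 (s / 4) n +
      (if n ∈ Icc 1 (z ^ K) then bj z q b 2 s n else 0) := by
    intro n
    split_ifs with h
    · have := mul_nonneg hE0 (bj_nonneg z q b 0 (s / 4) n)
      linarith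
    · rw [mem_Icc, not_and_or, not_le, not_le] at h
      rw [add_zero]
      rcases h with h | h
      · have hn : n = 0 := by omega
        have : bj z q b 2 s n = 0 := by
          unfold bj
          rw [hn]
          simp
        rw [this]
        exact mul_nonneg hE0 (bj_nonneg z q b 0 (s / 4) n)
      · exact large_term z q b K n A hA hz32 h
  have hsum1 : Summable (bj z q b 2 s) := (hSUM z q b 2 s hs0).2.1
  have hsum2 : Summable (fun n => E * bj z q b 0 (s / 4) n) :=
    ((hSUM z q b 0 (s / 4) (by positivity)).2.1).mul_left E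
  have hsum3 : HasSum (fun n => if n ∈ Icc 1 (z ^ K) then bj z q b 2 s n else 0)
      (∑ n ∈ Icc 1 (z ^ K), bj z q b 2 s n) := by
    have := hasSum_sum_of_ne_finset_zero
      (f := fun n => if n ∈ Icc 1 (z ^ K) then bj z q b 2 s n else 0) (s := Icc 1 (z ^ K))
      (L := SummationFilter.unconditional ℕ) (fun n hn => by rw [if_neg hn])
    convert this using 1
    exact Finset.sum_congr rfl fun n hn => by rw [if_pos hn]
  have hmain : Bj z q b 2 s ≤ E * Bj z q b 0 (s / 4) + ∑ n ∈ Icc 1 (z ^ K), bj z q b 2 s n := by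
    unfold Bj
    rw [← hsum3.tsum_eq, ← tsum_mul_left, ← hsum2.tsum_add hsum3.summable]
    exact hsum1.tsum_le_tsum hpt (hsum2.add hsum3.summable)
  have hB := hB0 z q b (s / 4) hz32 hq hqz hb (by positivity) (by
    have : s / 4 * Real.log z = 1 / (4 * A) := by
      rw [hs, ← hL]
      field_simp
    rw [this, div_le_one (by positivity)]
    linarith)
  have h1 : E * Bj z q b 0 (s / 4) ≤ c / 2 * L ^ 3 / q.totient := by
    refine (mul_le_mul_of_nonneg_left hB hE0).trans ?_
    have e1 : E * (C / (q.totient * (s / 4))) =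
        (Real.exp (-(K / (2 * A))) * (256 * A ^ 3 * C)) * L ^ 3 / q.totient := by
      rw [hE, hs]
      field_simp
      ring
    rw [e1]
    apply div_le_div_of_nonneg_right _ hφ.le
    exact mul_le_mul_of_nonneg_right hKexp (by positivity)
  -- the finite part
  set T := (Ioc z (z ^ K)).filter (fun p => p.Prime ∧ p ≡ b [MOD q]) with hT
  set S := (Icc 1 (z ^ K)).filter (fun n => IsPrimePow n ∧ ¬ n.Prime ∧ Rgh z n) with hS
  have hK3 : (0 : ℝ) ≤ (K : ℝ) ^ 3 * L ^ 3 := by positivity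
  have hpt2 : ∀ n ∈ Icc 1 (z ^ K), bj z q b 2 s n ≤
      (if n ∈ T then (K : ℝ) ^ 3 * L ^ 3 * (1 / n) else 0) +
      (if n ∈ S then (K : ℝ) ^ 3 * L ^ 3 * (1 / n) else 0) := by
    intro n hn
    have hn' := mem_Icc.1 hn
    have hA1 : (0 : ℝ) ≤ (if n ∈ T then (K : ℝ) ^ 3 * L ^ 3 * (1 / n) else 0) := by
      split_ifs <;> positivity
    have hA2 : (0 : ℝ) ≤ (if n ∈ S then (K : ℝ) ^ 3 * L ^ 3 * (1 / n) else 0) := by
      split_ifs <;> positivity
    unfold bj
    split_ifs with h h' h'' h''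
    all_goals try positivity
    · have := small_term z K n s hs0 hn'.1 hn'.2
      have e : (0 : ℝ) ≤ (K : ℝ) ^ 3 * L ^ 3 * (1 / n) := by positivity
      linarith
    · have := small_term z K n s hs0 hn'.1 hn'.2
      linarith
    · have := small_term z K n s hs0 hn'.1 hn'.2
      linarith
    · -- not a prime power
      have hnp : ¬ IsPrimePow n := by
        intro hpp
        by_cases hprime : n.Prime
        · apply h'
          rw [hT, mem_filter, mem_Ioc]
          refine ⟨⟨?_, hn'.2⟩, hprime, h.2⟩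
          by_contra hlt
          exact h.1 n hprime (not_lt.1 hlt) (dvd_refl n)
        · apply h''
          rw [hS, mem_filter]
          exact ⟨hn, hpp, hprime, h.1⟩
      rw [ArithmeticFunction.vonMangoldt_eq_zero_iff.2 hnp]
      simp
  have h2 : ∑ n ∈ Icc 1 (z ^ K), bj z q b 2 s n ≤
      (K : ℝ) ^ 3 * L ^ 3 * ∑ p ∈ T, (1 : ℝ) / p + (K : ℝ) ^ 3 * L ^ 3 * (1 / z) := by
    refine (Finset.sum_le_sum hpt2).trans ?_
    rw [Finset.sum_add_distrib]
    apply add_le_add
    · rw [Finset.sum_ite_mem, Finset.mul_sum]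
      exact Finset.sum_le_sum_of_subset_of_nonneg inter_subset_right
        (fun _ _ _ => by positivity)
    · rw [Finset.sum_ite_mem]
      refine (Finset.sum_le_sum_of_subset_of_nonneg (t := S) inter_subset_right
        (fun _ _ _ => by positivity)).trans ?_
      rw [← Finset.mul_sum]
      apply mul_le_mul_of_nonneg_left _ hK3
      apply pp_sum z (z ^ K) (by omega) S
      intro n hn
      rw [hS, mem_filter, mem_Icc] at hn
      exact ⟨hn.2.1, hn.2.2.1, hn.2.2.2, hn.1.2⟩
  have h3 : (K : ℝ) ^ 3 * L ^ 3 * (1 / z) ≤ c / 2 * L ^ 3 / q.totient := by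
    have : (K : ℝ) ^ 3 * L ^ 3 * (1 / z) = ((K : ℝ) ^ 3 * (1 / z)) * L ^ 3 := by ring
    rw [this]
    refine (mul_le_mul_of_nonneg_right hKz (by positivity)).trans (le_of_eq ?_)
    ring
  have h4 : c * L ^ 3 / q.totient = c / 2 * L ^ 3 / q.totient + c / 2 * L ^ 3 / q.totient := by
    ring
  rw [h4]
  linarith

end Pool.Agent.W803.MH
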